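import Pool.Agent.Y382.DN.Graph

/-!
# Symmetric designs decided by decomposable circuits

The points and the blocks of a symmetric `2`-`(v, k, lam)` design are named by strings of `m` bits,
`2 ^ m ≤ 2 v`, in any way. A DNNF (decomposable negation normal form: the conjuncts of a
conjunction have no variable in common, disjunctions are unrestricted; this includes
nondeterministic read-once branching programs, which may read the `2 m` bits in a different order
on every path) with `s` gates, whose leaves may be arbitrary functions of `w` bits, decides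
incidence. Then `k ≤ 4 lam ^ 3 2 ^ w s`, and `v ≤ 1 + 16 lam ^ 5 4 ^ w s ^ 2`. So there are only
finitely many symmetric designs for every `lam`, `w` and `s`, and an infinite family needs at least
`c v ^ (1 / 2)` gates.
-/

set_option autoImplicit false

namespace Pool.Agent.Results.MP_c38931_co.DecomposableCircuits

open Finset Pool.Agent.H607R2.BW Pool.Agent.Y382.DN

/-- `k (k - 1) = lam (v - 1)` -/
theorem repl (v k lam : ℕ) (hv : 1 ≤ v) (B : Fin v → Finset (Fin v))
    (hk : ∀ i, (B i).card = k)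
    (hp : ∀ x y : Fin v, x ≠ y → (univ.filter (fun i => x ∈ B i ∧ y ∈ B i)).card = lam) :
    k * k = k + lam * (v - 1) := by
  classical
  have h1 : ∀ x, (univ.filter (fun i => x ∈ B i)).card * k
      = (univ.filter (fun i => x ∈ B i)).card + lam * (v - 1) := by
    intro x
    have e1 : ∑ y : Fin v, (univ.filter (fun i => x ∈ B i ∧ y ∈ B i)).card
        = (univ.filter (fun i => x ∈ B i)).card * k := by
      simp_rw [Finset.card_filter]
      rw [Finset.sum_comm, Finset.sum_mul]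
      refine Finset.sum_congr rfl fun i _ => ?_
      by_cases hx : x ∈ B i
      · simp [hx, hk i]
      · simp [hx]
    rw [← e1, ← Finset.add_sum_erase _ _ (Finset.mem_univ x)]
    congr 1
    · simp
    · rw [Finset.sum_congr rfl (g := fun _ => lam)]
      · simp [Finset.card_erase_of_mem, mul_comm]
      · intro y hy
        exact hp x y (Finset.ne_of_mem_erase hy).symm
  have hsum : ∑ x : Fin v, (univ.filter (fun i => x ∈ B i)).card = v * k := by
    simp_rw [Finset.card_filter]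
    rw [Finset.sum_comm]
    rw [Finset.sum_congr rfl (g := fun _ => k)]
    · simp
    · intro i _
      rw [← hk i]; simp
  have h3 : ∑ x : Fin v, (univ.filter (fun i => x ∈ B i)).card * k =
      ∑ x : Fin v, ((univ.filter (fun i => x ∈ B i)).card + lam * (v - 1)) :=
    Finset.sum_congr rfl (fun x _ => h1 x)
  rw [← Finset.sum_mul, Finset.sum_add_distrib, hsum] at h3
  have h2 : v * k * k = v * k + v * (lam * (v - 1)) := by simpa using h3
  have h4 : v * (k * k) = v * (k + lam * (v - 1)) := by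
    rw [← mul_assoc, h2]; ring
  exact Nat.eq_of_mul_eq_mul_left (by omega) h4

/-- no two points lie in `lam + 1` common blocks -/
theorem gridFree {v m lam : ℕ} (hl : 1 ≤ lam) (B : Fin v → Finset (Fin v)) (p b : Fin v → Str m)
    (hlam : ∀ x y : Fin v, x ≠ y → (univ.filter (fun i => x ∈ B i ∧ y ∈ B i)).card = lam)
    (hp : Function.Injective p) (hb : Function.Injective b) :
    GridFree (lam + 1) (fun x y : Str m => ∃ i j, i ∈ B j ∧ x = p i ∧ y = b j) := by
  classical
  intro x y hx hy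
  by_contra hcon
  push Not at hcon
  let z : Fin (lam + 1) := ⟨0, by omega⟩
  let u : Fin (lam + 1) := ⟨1, by omega⟩
  have hzu : z ≠ u := by
    intro h
    have := congrArg Fin.val h
    simp [z, u] at this
  obtain ⟨i0, _, _, hi0, _⟩ := hcon z z
  obtain ⟨i1, _, _, hi1, _⟩ := hcon u z
  have hne : i0 ≠ i1 := by
    rintro rfl
    exact hzu (hx (hi0.trans hi1.symm))
  have key : ∀ j : Fin (lam + 1), ∃ t : Fin v, i0 ∈ B t ∧ i1 ∈ B t ∧ y j = b t := by
    intro j
    obtain ⟨a, t, h1, h2, h3⟩ := hcon z j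
    obtain ⟨a', t', h1', h2', h3'⟩ := hcon u j
    have ea : a = i0 := hp (h2.symm.trans hi0)
    have ea' : a' = i1 := hp (h2'.symm.trans hi1)
    have et : t' = t := hb (h3'.symm.trans h3)
    subst ea ea' et
    exact ⟨t', h1, h1', h3⟩
  choose t ht0 ht1 ht2 using key
  have hinj : Function.Injective t := fun j j' h => hy (by rw [ht2 j, ht2 j', h])
  have : (lam + 1) ≤ lam := by
    calc lam + 1 = (univ.image t).card := by
          rw [card_image_of_injective _ hinj, card_univ, Fintype.card_fin]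
      _ ≤ (univ.filter (fun i => i0 ∈ B i ∧ i1 ∈ B i)).card := by
          apply card_le_card
          intro q hq
          obtain ⟨j, _, rfl⟩ := mem_image.1 hq
          exact mem_filter.2 ⟨mem_univ _, ht0 j, ht1 j⟩
      _ = lam := hlam _ _ hne
  omega

/-- the number of flags -/
theorem flags {v m k : ℕ} (B : Fin v → Finset (Fin v)) (p b : Fin v → Str m)
    (hk : ∀ i, (B i).card = k) (hp : Function.Injective p) (hb : Function.Injective b) :
    v * k ≤ Nat.card {q : Str m × Str m // ∃ i j, i ∈ B j ∧ q.1 = p i ∧ q.2 = b j} := by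
  classical
  have h1 : Nat.card (Σ j : Fin v, {i // i ∈ B j}) = v * k := by
    rw [Nat.card_eq_fintype_card, Fintype.card_sigma]
    simp [hk]
  rw [← h1]
  refine Nat.card_le_card_of_injective
    (fun q => ⟨(p q.2.1, b q.1), q.2.1, q.1, q.2.2, rfl, rfl⟩) ?_
  rintro ⟨j, i, hi⟩ ⟨j', i', hi'⟩ h
  have h2 := congrArg Subtype.val h
  simp only [Prod.mk.injEq] at h2
  obtain rfl := hp h2.1
  obtain rfl := hb h2.2
  rfl

/-- the bound -/
theorem bound {lam m s w v k : ℕ} (B : Fin v → Finset (Fin v)) (p b : Fin v → Str m)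
    (hl : 1 ≤ lam) (hk : ∀ i, (B i).card = k)
    (hlam : ∀ x y : Fin v, x ≠ y → (univ.filter (fun i => x ∈ B i ∧ y ∈ B i)).card = lam)
    (hp : Function.Injective p) (hb : Function.Injective b)
    (hC : PairDnnf m s w (fun x y => ∃ i j, i ∈ B j ∧ x = p i ∧ y = b j)) :
    v * k ≤ 2 * lam ^ 3 * 2 ^ w * (s * 2 ^ m) := by
  have h1 := t_KRR m s w (lam + 1) _ (by omega) hC (gridFree hl B p b hlam hp hb)
  exact (flags B p b hk hp hb).trans (by simpa using h1)

theorem result :
    -- (1) the number of flags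
    (∀ (lam m s w v k : ℕ) (B : Fin v → Finset (Fin v)) (p b : Fin v → Str m), 1 ≤ lam →
      (∀ i, (B i).card = k) →
      (∀ x y : Fin v, x ≠ y → (univ.filter (fun i => x ∈ B i ∧ y ∈ B i)).card = lam) →
      Function.Injective p → Function.Injective b →
      PairDnnf m s w (fun x y => ∃ i j, i ∈ B j ∧ x = p i ∧ y = b j) →
      v * k ≤ 2 * lam ^ 3 * 2 ^ w * (s * 2 ^ m)) ∧
    -- (2) finiteness for circuits of bounded size, with explicit bounds
    (∀ (lam m s w v k : ℕ) (B : Fin v → Finset (Fin v)) (p b : Fin v → Str m), 1 ≤ lam →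
      (∀ i, (B i).card = k) →
      (∀ x y : Fin v, x ≠ y → (univ.filter (fun i => x ∈ B i ∧ y ∈ B i)).card = lam) →
      Function.Injective p → Function.Injective b → 2 ^ m ≤ 2 * v →
      PairDnnf m s w (fun x y => ∃ i j, i ∈ B j ∧ x = p i ∧ y = b j) →
      k ≤ 4 * lam ^ 3 * 2 ^ w * s ∧ v ≤ 1 + 16 * lam ^ 5 * 4 ^ w * s ^ 2) ∧
    -- (3) designs need `c v ^ (1 / 2)` gates
    (∀ lam w : ℕ, 1 ≤ lam → ∃ c : ℝ, 0 < c ∧
      ∀ (m s v k : ℕ) (B : Fin v → Finset (Fin v)) (p b : Fin v → Str m), 2 ≤ v →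
      (∀ i, (B i).card = k) →
      (∀ x y : Fin v, x ≠ y → (univ.filter (fun i => x ∈ B i ∧ y ∈ B i)).card = lam) →
      Function.Injective p → Function.Injective b → 2 ^ m ≤ 2 * v →
      PairDnnf m s w (fun x y => ∃ i j, i ∈ B j ∧ x = p i ∧ y = b j) →
      c * Real.sqrt v ≤ s) := by
  have h2 : ∀ (lam m s w v k : ℕ) (B : Fin v → Finset (Fin v)) (p b : Fin v → Str m), 1 ≤ lam →
      (∀ i, (B i).card = k) →
      (∀ x y : Fin v, x ≠ y → (univ.filter (fun i => x ∈ B i ∧ y ∈ B i)).card = lam) →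
      Function.Injective p → Function.Injective b → 2 ^ m ≤ 2 * v →
      PairDnnf m s w (fun x y => ∃ i j, i ∈ B j ∧ x = p i ∧ y = b j) →
      k ≤ 4 * lam ^ 3 * 2 ^ w * s ∧ v ≤ 1 + 16 * lam ^ 5 * 4 ^ w * s ^ 2 := by
    intro lam m s w v k B p b hl hk hlam hp hb hm hC
    have hv : 0 < v := by
      by_contra h
      have : v = 0 := by omega
      subst this
      have : 0 < 2 ^ m := by positivity
      omega
    have h1 := bound B p b hl hk hlam hp hb hC
    have hkb : k ≤ 4 * lam ^ 3 * 2 ^ w * s := by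
      have h3 : v * k ≤ v * (4 * lam ^ 3 * 2 ^ w * s) := by
        calc v * k ≤ 2 * lam ^ 3 * 2 ^ w * (s * 2 ^ m) := h1
          _ ≤ 2 * lam ^ 3 * 2 ^ w * (s * (2 * v)) := by gcongr
          _ = v * (4 * lam ^ 3 * 2 ^ w * s) := by ring
      exact Nat.le_of_mul_le_mul_left h3 hv
    refine ⟨hkb, ?_⟩
    have h4 := repl v k lam hv B hk hlam
    have h5 : lam * (v - 1) ≤ lam * (16 * lam ^ 5 * 4 ^ w * s ^ 2) := by
      calc lam * (v - 1) ≤ k * k := by omega
        _ ≤ (4 * lam ^ 3 * 2 ^ w * s) * (4 * lam ^ 3 * 2 ^ w * s) := Nat.mul_le_mul hkb hkb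
        _ = lam * (16 * lam ^ 5 * (2 ^ w * 2 ^ w) * s ^ 2) := by ring
        _ = lam * (16 * lam ^ 5 * 4 ^ w * s ^ 2) := by rw [← mul_pow]; norm_num
    have h6 := Nat.le_of_mul_le_mul_left h5 (by omega)
    omega
  refine ⟨fun lam m s w v k B p b hl hk hlam hp hb hC => bound B p b hl hk hlam hp hb hC, h2, ?_⟩
  intro lam w hl
  have hpos : (0 : ℝ) < ((32 * lam ^ 5 * 4 ^ w : ℕ) : ℝ) := by positivity
  refine ⟨1 / Real.sqrt ((32 * lam ^ 5 * 4 ^ w : ℕ) : ℝ), by positivity, ?_⟩
  intro m s v k B p b hv hk hlam hp hb hm hC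
  obtain ⟨-, h3⟩ := h2 lam m s w v k B p b hl hk hlam hp hb hm hC
  have h4 : v ≤ 32 * lam ^ 5 * 4 ^ w * s ^ 2 := by
    have : 1 ≤ 16 * lam ^ 5 * 4 ^ w * s ^ 2 := by
      by_contra h
      have : 16 * lam ^ 5 * 4 ^ w * s ^ 2 = 0 := by omega
      omega
    calc v ≤ 1 + 16 * lam ^ 5 * 4 ^ w * s ^ 2 := h3
      _ ≤ 16 * lam ^ 5 * 4 ^ w * s ^ 2 + 16 * lam ^ 5 * 4 ^ w * s ^ 2 := by omega
      _ = _ := by ring
  have h5 : (v : ℝ) ≤ ((32 * lam ^ 5 * 4 ^ w : ℕ) : ℝ) * (s : ℝ) ^ 2 := by exact_mod_cast h4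
  have h6 : Real.sqrt v ≤ Real.sqrt ((32 * lam ^ 5 * 4 ^ w : ℕ) : ℝ) * s := by
    calc Real.sqrt v ≤ Real.sqrt (((32 * lam ^ 5 * 4 ^ w : ℕ) : ℝ) * (s : ℝ) ^ 2) :=
          Real.sqrt_le_sqrt h5
      _ = Real.sqrt ((32 * lam ^ 5 * 4 ^ w : ℕ) : ℝ) * s := by
          rw [Real.sqrt_mul hpos.le, Real.sqrt_sq (Nat.cast_nonneg s)]
  rw [one_div, inv_mul_le_iff₀ (Real.sqrt_pos.2 hpos)]
  exact h6

end Pool.Agent.Results.MP_c38931_co.DecomposableCircuits
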