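import Mathlib
import Pool.Agent.Q90.TD.Pl
import Pool.Agent.TH905.PC.Dsg
import Pool.Agent.Y346.CH.Diag

set_option autoImplicit false

/-!
# Fixed `lam`: tactical decompositions of symmetric designs into classes of equal size, and into
classes with a large common factor, for almost all block sizes

Let `lam ≥ 1`.  There is a function `y` which tends to infinity such that all `k` outside a set of
natural density zero have the following property.  Let a tactical decomposition of a symmetric
`2-(v, k, lam)` design have point classes of sizes `g * m i` and block classes of sizes `g' * m' j`,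
where the factors `g` and `g'` are arbitrary (for instance very large), while all prime factors of
the numbers `m i`, `m' j`, `∑ i, m i = v / g` and `∑ j, m' j = v / g'` are at most `y k`.  Then
there are as many point classes as block classes, their number is `1` modulo `4`, and
`(∑ i, m i) * ∏ i, m i` and `(∑ j, m' j) * ∏ j, m' j` are perfect squares.

The case `m = 1`: if all point classes have the same size, all block classes have the same size, and
all prime factors of the number `t` of the classes are at most `y k`, then `t` is a perfect square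
and odd.  So for almost all `k` no symmetric `2-(v, k, lam)` design has a tactical decomposition
into `t` classes of equal size with `2 ≤ t ≤ 8`.
-/

namespace Pool.Agent.Results.MP_c38931_co.EqualClasses

open Filter Topology

/-- The blocks `B i` (`i : Fin v`) form a symmetric `2-(v, k, lam)` design on the points `Fin v`
with `2 ≤ k < v`. -/
structure IsSymmetricDesign (v k lam : ℕ) (B : Fin v → Finset (Fin v)) : Prop where
  two_le : 2 ≤ k
  lt : k < v
  size : ∀ i, (B i).card = k
  pair : ∀ x y : Fin v, x ≠ y →
    (Finset.univ.filter (fun i => x ∈ B i ∧ y ∈ B i)).card = lam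

/-- The point classes `{x | c x = i}` and the block classes `{b | d b = j}` are nonempty and form a
tactical decomposition of the design with the blocks `B b`. -/
structure IsTactical {v s t : ℕ} (B : Fin v → Finset (Fin v)) (c : Fin v → Fin s)
    (d : Fin v → Fin t) : Prop where
  pointClasses : Function.Surjective c
  blockClasses : Function.Surjective d
  pointsOnBlocks : ∀ (i : Fin s) (b b' : Fin v), d b = d b' →
    Nat.card {x : Fin v // c x = i ∧ x ∈ B b} = Nat.card {x : Fin v // c x = i ∧ x ∈ B b'}
  blocksThroughPoints : ∀ (j : Fin t) (x x' : Fin v), c x = c x' →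
    Nat.card {b : Fin v // d b = j ∧ x ∈ B b} = Nat.card {b : Fin v // d b = j ∧ x' ∈ B b}

/-- all prime factors of `a` are at most `y` -/
def Smooth (y a : ℕ) : Prop := ∀ q : ℕ, q.Prime → q ∣ a → q ≤ y

/-- the property of the block size `k`, for given `lam` and the bound `y` for the prime factors -/
def Good (lam y k : ℕ) : Prop :=
  ∀ (v : ℕ) (B : Fin v → Finset (Fin v)) (s t : ℕ) (c : Fin v → Fin s) (d : Fin v → Fin t)
    (g g' : ℕ) (m : Fin s → ℕ) (m' : Fin t → ℕ),
    IsSymmetricDesign v k lam B → IsTactical B c d →
      (∀ i, Nat.card {x : Fin v // c x = i} = g * m i) →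
      (∀ j, Nat.card {b : Fin v // d b = j} = g' * m' j) →
      (∀ i, Smooth y (m i)) → (∀ j, Smooth y (m' j)) → Smooth y (∑ i, m i) →
      Smooth y (∑ j, m' j) →
        s = t ∧ s % 4 = 1 ∧ IsSquare ((∑ i, m i) * ∏ i, m i) ∧
          IsSquare ((∑ j, m' j) * ∏ j, m' j)

theorem Smooth.mono {k l a : ℕ} (h : k ≤ l) (ha : Smooth k a) : Smooth l a :=
  fun q hq hd => (ha q hq hd).trans h

theorem good_mono {lam k l n : ℕ} (h : k ≤ l) (hn : Good lam l n) : Good lam k n := by
  intro v B s t c d g g' m m' hB hT h1 h2 h3 h4 h5 h6
  exact hn v B s t c d g g' m m' hB hT h1 h2 (fun i => (h3 i).mono h)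
    (fun j => (h4 j).mono h) (h5.mono h) (h6.mono h)

open Pool.Agent.TH905.PC Pool.Agent.Q90.TD in
theorem good_of {lam y k : ℕ} (hlam : 1 ≤ lam) (hn : ArOK (y.factorial * lam) (k - lam)) :
    Good lam y k := by
  classical
  intro v B s t c d g g' m m' hB hT h1 h2 h3 h4 h5 h6
  have hv : 2 ≤ v := by
    have h1 := hB.two_le
    have h2 := hB.lt
    omega
  have : Nonempty (Fin v) := ⟨⟨0, by omega⟩⟩
  have D := des_of hv hlam hB.lt hB.size hB.pair
  have H : Half (fun (x : Fin v) (b : Fin v) => x ∈ B b) c d :=
    half_of hT.pointClasses hT.blockClasses hT.pointsOnBlocks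
  have H' : Half (fun (b : Fin v) (x : Fin v) => x ∈ B b) d c :=
    half_of hT.blockClasses hT.pointClasses hT.blocksThroughPoints
  have hla : ∀ q : ℕ, q.Prime → q ∣ lam → q ∣ y.factorial * lam :=
    fun q _ h => h.mul_left _
  have hf : ∀ {a : ℕ}, Smooth y a → ∀ q : ℕ, q.Prime → q ∣ a → q ∣ y.factorial * lam :=
    fun ha q hq hd => (Nat.dvd_factorial hq.pos (ha q hq hd)).mul_right _
  obtain ⟨h7, h8, h9, h10⟩ := tac_ratio_both H H' D (by omega) hn hla (m := m) (m' := m')
    (fun i => by rw [← nat_card_cs, h1]) (fun j => by rw [← nat_card_cs, h2])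
    (fun i => hf (h3 i)) (fun j => hf (h4 j)) (hf h5) (hf h6)
  rw [Fintype.card_fin] at h7 h8
  rw [Fintype.card_fin] at h7
  exact ⟨h7, h8, h9, h10⟩

/-- Let `lam ≥ 1`.  There is a function `y` which tends to infinity such that the set of all `k`
without the property `Good lam (y k) k` has natural density zero. -/
theorem result (lam : ℕ) (hlam : 1 ≤ lam) : ∃ y : ℕ → ℕ, Monotone y ∧ Tendsto y atTop atTop ∧
    Tendsto (fun X : ℕ => (({k : ℕ | k ≤ X ∧ ¬ Good lam (y k) k}.ncard : ℕ) : ℝ) / X)
      atTop (𝓝 0) := by
  apply Pool.Agent.Y346.CH.diagonal (fun y k => ¬ Good lam y k)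
  · intro k l n hkl h1 h2
    exact h1 (good_mono hkl h2)
  · intro y
    refine Pool.Agent.TH905.PC.Negl.mono ?_
      ((Pool.Agent.TH905.PC.ar_negl (y.factorial * lam)
        (mul_ne_zero (Nat.factorial_ne_zero y) (by omega))).shift lam)
    intro k hk
    have hk' := hk
    simp only [Good, not_forall] at hk
    obtain ⟨v, B, s, t, c, d, g, g', m, m', hB, -⟩ := hk
    have hv : 2 ≤ v := by
      have h1 := hB.two_le
      have h2 := hB.lt
      omega
    obtain ⟨hlk, -, -⟩ := Pool.Agent.H951R4.OD.design_facts hv hlam hB.lt hB.size hB.pair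
    exact ⟨hlk.le, by omega, fun har => hk' (good_of hlam har)⟩

end Pool.Agent.Results.MP_c38931_co.EqualClasses
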