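import Mathlib
import Pool.Agent.Q90.TD.Few
import Pool.Agent.H634R3.WG.TaskPolX
import Pool.Agent.H634R3.WG.TaskMainX
import Pool.Agent.H634R3.WG.TaskCountIIX
import Pool.Agent.W854.FA.App

set_option autoImplicit false

/-!
# Fixed `lam`: automorphism groups with few orbits and small point stabilizers

Let `lam ≥ 1`, `S` and `T` be given.  For every `ε > 0` at most `C X (log X) ^ (ε - 1)` integers
`k ≤ X` are block sizes of symmetric `2-(v, k, lam)` designs having a group of automorphisms with
at most `T` orbits on the points all of whose point stabilizers have order at most `S`.  The group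
is arbitrary otherwise, it need not be transitive or solvable.

Proof.  Let `q` be a prime divisor of `v`, larger than `T` times `S!` and larger than `S`.  Then `q`
divides the order of the group, and an element of order `q` fixes no point.  Therefore, if `v` is
odd, no prime which divides `k - lam` exactly once is a quadratic nonresidue modulo `q`; if `v` is
even then `k - lam` is a square.  The integers `k` with this property are counted by the sieve of
the starting files.
-/

namespace Pool.Agent.Results.MP_c38931_co.FewOrbits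

/-- The blocks `B i` (`i : Fin v`) form a symmetric `2-(v, k, lam)` design on the points `Fin v`
with `2 ≤ k < v`. -/
structure IsSymmetricDesign (v k lam : ℕ) (B : Fin v → Finset (Fin v)) : Prop where
  two_le : 2 ≤ k
  lt : k < v
  size : ∀ i, (B i).card = k
  pair : ∀ x y : Fin v, x ≠ y →
    (Finset.univ.filter (fun i => x ∈ B i ∧ y ∈ B i)).card = lam

/-- `H` is a group of automorphisms with at most `T` orbits on the points, and all point stabilizers
have order at most `S`. -/
structure HasFewOrbits {v : ℕ} (B : Fin v → Finset (Fin v)) (H : Subgroup (Equiv.Perm (Fin v)))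
    (S T : ℕ) : Prop where
  aut : ∀ h ∈ H, ∀ i, ∃ j, (B i).image h = B j
  stab : ∀ x : Fin v, Nat.card (MulAction.stabilizer H x) ≤ S
  orbits : Nat.card (MulAction.orbitRel.Quotient H (Fin v)) ≤ T

open Pool.Agent.H951R4.OD Pool.Agent.H634R3.WG Pool.Agent.H634R3.WG.Lam in
theorem pass_few {v k lam : ℕ} (hlam : 1 ≤ lam) {B : Fin v → Finset (Fin v)}
    {H : Subgroup (Equiv.Perm (Fin v))} {S T : ℕ} (hB : IsSymmetricDesign v k lam B)
    (hH : HasFewOrbits B H S T) :
    PassX (fl lam) (cl lam * (S + T * S.factorial).factorial) (k - lam) := by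
  classical
  have hv : 2 ≤ v := by
    have h1 := hB.two_le
    have h2 := hB.lt
    omega
  have : Nonempty (Fin v) := ⟨⟨0, by omega⟩⟩
  rcases Nat.even_or_odd v with he | hodd
  · exact pass_sq (schutz_design hv hlam hB.lt hB.size hB.pair he)
  intro r q hr hq hqc hqf hqf2
  obtain ⟨hrp, -, hrn, hrn2⟩ := hr
  obtain ⟨hlk, -, -⟩ := design_facts hv hlam hB.lt hB.size hB.pair
  obtain ⟨-, hcount⟩ := repl v k lam hv hlam B hB.size hB.pair
  have hqc1 : ¬ q ∣ cl lam := fun h => hqc (h.mul_right _)
  have hbig : S + T * S.factorial < q := by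
    by_contra h
    push Not at h
    exact hqc (Dvd.dvd.mul_left (Nat.dvd_factorial hq.pos h) _)
  have hq2 : q ≠ 2 := by
    rintro rfl
    exact hqc1 (by unfold cl; exact dvd_mul_of_dvd_left (dvd_mul_right 2 lam) _)
  have hql : ¬ q ∣ lam := fun h1 => hqc1 (by
    unfold cl
    exact dvd_mul_of_dvd_left (dvd_mul_of_dvd_right h1 2) _)
  have hfl : fl lam (k - lam) = ((lam * v : ℕ) : ℤ) := by
    unfold fl
    have h1 : (k : ℤ) * k = lam * ((v - 1 : ℕ) : ℤ) + k := by exact_mod_cast hcount
    rw [Nat.cast_sub (by omega)] at h1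
    rw [Nat.cast_sub hlk.le]
    push_cast at h1 ⊢
    nlinarith
  rw [hfl] at hqf
  have hqv : q ∣ v := by
    have h1 : q ∣ lam * v := by exact_mod_cast hqf
    exact ((Nat.Prime.dvd_mul hq).1 h1).resolve_left hql
  have hqH : q ∣ Nat.card H := Pool.Agent.Q90.TD.dvd_card_of_few hH.stab hH.orbits hq
    (by rw [Nat.card_eq_fintype_card, Fintype.card_fin]; exact hqv) (by omega)
  have hF : Fact q.Prime := ⟨hq⟩
  obtain ⟨g, hg⟩ := exists_prime_orderOf_dvd_card' q hqH
  have hgq : g ^ q = 1 := by rw [← hg]; exact pow_orderOf_eq_one g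
  refine Pool.Agent.W854.FA.fix_test hv hlam hB.lt hB.size hB.pair hodd
    (σ := (g : Equiv.Perm (Fin v))) (hH.aut _ g.2) hq hq2 (a := 1) ?_ ?_ hrp hrn hrn2
  · rw [pow_one, ← Subgroup.coe_pow, hgq, Subgroup.coe_one]
  · have h0 : (Finset.univ.filter (fun x : Fin v => (g : Equiv.Perm (Fin v)) x = x)) = ∅ := by
      rw [Finset.filter_eq_empty_iff]
      intro x _ hx
      have h1 : g • x = x := hx
      let k : MulAction.stabilizer H x := ⟨g, h1⟩
      have h2 : orderOf k = q := by
        rw [← hg, ← Subgroup.orderOf_coe]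
      have h3 : q ≤ Nat.card (MulAction.stabilizer H x) := by
        rw [← h2]
        exact Nat.le_of_dvd Nat.card_pos (orderOf_dvd_natCard k)
      have := hH.stab x
      omega
    rw [h0]
    exact ⟨0, rfl⟩

/-- For all `lam ≥ 1`, `S`, `T` and `ε > 0` there is `C` such that for all `X ≥ 3` at most
`C X (log X) ^ (ε - 1)` integers `k ≤ X` are block sizes of symmetric `2-(v, k, lam)` designs having
a group of automorphisms with at most `T` point orbits and with `|H_x| ≤ S` for all points `x`. -/
theorem result (lam : ℕ) (hlam : 1 ≤ lam) (S T : ℕ) (ε : ℝ) (hε : 0 < ε) :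
    ∃ C : ℝ, 0 < C ∧ ∀ X : ℕ, 3 ≤ X →
      ({k : ℕ | k ≤ X ∧ ∃ (v : ℕ) (B : Fin v → Finset (Fin v))
        (H : Subgroup (Equiv.Perm (Fin v))), IsSymmetricDesign v k lam B ∧
          HasFewOrbits B H S T}.ncard : ℝ) ≤
      C * X * (Real.log X) ^ (ε - 1) := by
  have hm : 0 < (S + T * S.factorial).factorial := Nat.factorial_pos _
  have hP := Pool.Agent.Q90.TD.polX_mul
    (Pool.Agent.H634R3.WG.TaskPolX.taskPolX lam hlam) hm
  obtain ⟨C, hC, H⟩ := Pool.Agent.H634R3.WG.TaskMainX.taskMainX
    Pool.Agent.H634R3.WG.TaskCountIIX.taskCountIIX _ _ _ _ hP ε hε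
  refine ⟨C, hC, fun X hX3 => le_trans ?_ (H X hX3)⟩
  have hfin : {n : ℕ | 1 ≤ n ∧ n ≤ X ∧ Pool.Agent.H634R3.WG.PassX (Pool.Agent.H951R4.OD.fl lam)
      (Pool.Agent.H951R4.OD.cl lam * (S + T * S.factorial).factorial) n}.Finite :=
    (Set.finite_Iic X).subset fun n hn => hn.2.1
  have key : ∀ k : ℕ, (∃ (v : ℕ) (B : Fin v → Finset (Fin v))
      (H : Subgroup (Equiv.Perm (Fin v))), IsSymmetricDesign v k lam B ∧
        HasFewOrbits B H S T) →
      lam < k ∧ Pool.Agent.H634R3.WG.PassX (Pool.Agent.H951R4.OD.fl lam)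
        (Pool.Agent.H951R4.OD.cl lam * (S + T * S.factorial).factorial) (k - lam) := by
    rintro k ⟨v, B, H, hB, hH⟩
    have hv : 2 ≤ v := by
      have h1 := hB.two_le
      have h2 := hB.lt
      omega
    exact ⟨(Pool.Agent.H951R4.OD.design_facts hv hlam hB.lt hB.size hB.pair).1,
      pass_few hlam hB hH⟩
  have h1 := Set.ncard_le_ncard_of_injOn (s := {k : ℕ | k ≤ X ∧ ∃ (v : ℕ)
      (B : Fin v → Finset (Fin v)) (H : Subgroup (Equiv.Perm (Fin v))),
        IsSymmetricDesign v k lam B ∧ HasFewOrbits B H S T})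
    (t := {n : ℕ | 1 ≤ n ∧ n ≤ X ∧ Pool.Agent.H634R3.WG.PassX (Pool.Agent.H951R4.OD.fl lam)
      (Pool.Agent.H951R4.OD.cl lam * (S + T * S.factorial).factorial) n})
    (fun k => k - lam)
    (fun k hk => by
      obtain ⟨hkX, hk2⟩ := hk
      obtain ⟨h1, h2⟩ := key k hk2
      exact ⟨by omega, by omega, h2⟩)
    (fun a ha b hb hab => by
      obtain ⟨h1, -⟩ := key a ha.2
      obtain ⟨h2, -⟩ := key b hb.2
      simp only at hab
      omega) hfin
  exact_mod_cast h1

end Pool.Agent.Results.MP_c38931_co.FewOrbits
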