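import Mathlib
import Pool.Agent.Q90.TD.Pl
import Pool.Agent.TH905.PC.Dsg
import Pool.Agent.Y346.CH.Diag

set_option autoImplicit false

/-!
# Fixed `lam`: tactical decompositions of symmetric designs with almost all block sizes

A tactical decomposition of a symmetric `2-(v, k, lam)` design is a partition of its points and a
partition of its blocks such that the number of points of each point class on a block depends only
on the class of the block, and the number of blocks of each block class through a point depends
only on the class of the point.  No group is assumed; the orbits of a group of automorphisms are a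
special case.

Let `lam ≥ 1`.  There is a function `y` which tends to infinity such that all `k` outside a set of
natural density zero have the following property.  If all prime factors of the sizes of the classes
of a tactical decomposition of a symmetric `2-(v, k, lam)` design are at most `y k`, then there are
as many point classes as block classes, their number is `1` modulo `4`, and `lam`, the product of
the sizes of the point classes and the product of the sizes of the block classes are perfect
squares.
-/

namespace Pool.Agent.Results.MP_c38931_co.TacticalDecompositions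

open Filter Topology

/-- The blocks `B i` (`i : Fin v`) form a symmetric `2-(v, k, lam)` design on the points `Fin v`
with `2 ≤ k < v`. -/
structure IsSymmetricDesign (v k lam : ℕ) (B : Fin v → Finset (Fin v)) : Prop where
  two_le : 2 ≤ k
  lt : k < v
  size : ∀ i, (B i).card = k
  pair : ∀ x y : Fin v, x ≠ y →
    (Finset.univ.filter (fun i => x ∈ B i ∧ y ∈ B i)).card = lam

/-- The point classes `{x | c x = i}` and the block classes `{b | d b = j}` are nonempty and form a
tactical decomposition of the design with the blocks `B b`. -/
structure IsTactical {v s t : ℕ} (B : Fin v → Finset (Fin v)) (c : Fin v → Fin s)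
    (d : Fin v → Fin t) : Prop where
  pointClasses : Function.Surjective c
  blockClasses : Function.Surjective d
  pointsOnBlocks : ∀ (i : Fin s) (b b' : Fin v), d b = d b' →
    Nat.card {x : Fin v // c x = i ∧ x ∈ B b} = Nat.card {x : Fin v // c x = i ∧ x ∈ B b'}
  blocksThroughPoints : ∀ (j : Fin t) (x x' : Fin v), c x = c x' →
    Nat.card {b : Fin v // d b = j ∧ x ∈ B b} = Nat.card {b : Fin v // d b = j ∧ x' ∈ B b}

/-- the property of the block size `k`, for given `lam` and the bound `y` for the prime factors -/
def Good (lam y k : ℕ) : Prop :=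
  ∀ (v : ℕ) (B : Fin v → Finset (Fin v)) (s t : ℕ) (c : Fin v → Fin s) (d : Fin v → Fin t),
    IsSymmetricDesign v k lam B → IsTactical B c d →
      (∀ i, ∀ q : ℕ, q.Prime → q ∣ Nat.card {x : Fin v // c x = i} → q ≤ y) →
      (∀ j, ∀ q : ℕ, q.Prime → q ∣ Nat.card {b : Fin v // d b = j} → q ≤ y) →
        s = t ∧ s % 4 = 1 ∧ IsSquare lam ∧ IsSquare (∏ i, Nat.card {x : Fin v // c x = i}) ∧
          IsSquare (∏ j, Nat.card {b : Fin v // d b = j})

theorem good_mono {lam k l n : ℕ} (h : k ≤ l) (hn : Good lam l n) : Good lam k n := by
  intro v B s t c d hB hT h1 h2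
  exact hn v B s t c d hB hT (fun i q hq hd => (h1 i q hq hd).trans h)
    (fun j q hq hd => (h2 j q hq hd).trans h)

theorem square_of_mul {a b : ℕ} (ha : a ≠ 0) (h : IsSquare a) (hab : IsSquare (a * b)) :
    IsSquare b := by
  obtain ⟨x, rfl⟩ := h
  obtain ⟨y, hy⟩ := hab
  have hx0 : x ≠ 0 := fun h => ha (by rw [h])
  have hxy : x ∣ y := by
    have h5 : x ^ 2 ∣ y ^ 2 := ⟨b, by rw [pow_two y, ← hy]; ring⟩
    exact (Nat.pow_dvd_pow_iff (by norm_num)).1 h5
  obtain ⟨z, rfl⟩ := hxy
  refine ⟨z, Nat.eq_of_mul_eq_mul_left (Nat.pos_of_ne_zero (mul_ne_zero hx0 hx0)) ?_⟩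
  rw [hy]
  ring

open Pool.Agent.TH905.PC Pool.Agent.Q90.TD in
theorem good_of {lam y k : ℕ} (hlam : 1 ≤ lam) (hn : ArOK (y.factorial * lam) (k - lam)) :
    Good lam y k := by
  classical
  intro v B s t c d hB hT h1 h2
  have hv : 2 ≤ v := by
    have h1 := hB.two_le
    have h2 := hB.lt
    omega
  have : Nonempty (Fin v) := ⟨⟨0, by omega⟩⟩
  have D := des_of hv hlam hB.lt hB.size hB.pair
  have H : Half (fun (x : Fin v) (b : Fin v) => x ∈ B b) c d :=
    half_of hT.pointClasses hT.blockClasses hT.pointsOnBlocks
  have H' : Half (fun (b : Fin v) (x : Fin v) => x ∈ B b) d c :=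
    half_of hT.blockClasses hT.pointClasses hT.blocksThroughPoints
  have hla : ∀ q : ℕ, q.Prime → q ∣ lam → q ∣ y.factorial * lam :=
    fun q _ h => h.mul_left _
  obtain ⟨h3, h4, h5, h6⟩ := tac_smooth_both H H' D (by omega) hn hla
    (fun i q hq h => (Nat.dvd_factorial hq.pos (h1 i q hq (by rwa [nat_card_cs]))).mul_right _)
    (fun j q hq h => (Nat.dvd_factorial hq.pos (h2 j q hq (by rwa [nat_card_cs]))).mul_right _)
  have hone : ∀ i : Fin v, cs (id : Fin v → Fin v) i = 1 := by
    intro i
    rw [← nat_card_cs, Nat.card_eq_fintype_card, Fintype.card_subtype, Finset.card_eq_one]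
    exact ⟨i, by ext x; simp⟩
  have hsq : IsSquare lam := by
    have K : Half (fun (x : Fin v) (b : Fin v) => x ∈ B b) id id :=
      ⟨Function.surjective_id, Function.surjective_id, fun i l l' hl => by
        have : l = l' := hl
        rw [this]⟩
    have K' : Half (fun (b : Fin v) (x : Fin v) => x ∈ B b) id id :=
      ⟨Function.surjective_id, Function.surjective_id, fun i l l' hl => by
        have : l = l' := hl
        rw [this]⟩
    obtain ⟨-, -, h7, -⟩ := tac_smooth_both K K' D (by omega) hn hla
      (fun i q hq h => by
        rw [hone] at h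
        exact absurd (Nat.dvd_one.1 h) hq.ne_one)
      (fun j q hq h => by
        rw [hone] at h
        exact absurd (Nat.dvd_one.1 h) hq.ne_one)
    simpa [hone] using h7
  rw [Fintype.card_fin] at h3 h4
  rw [Fintype.card_fin] at h3
  simp only [nat_card_cs]
  exact ⟨h3, h4, hsq, square_of_mul (by omega) hsq h5, square_of_mul (by omega) hsq h6⟩

/-- Let `lam ≥ 1`.  There is a function `y` which tends to infinity such that the set of all `k`
without the property `Good lam (y k) k` has natural density zero. -/
theorem result (lam : ℕ) (hlam : 1 ≤ lam) : ∃ y : ℕ → ℕ, Monotone y ∧ Tendsto y atTop atTop ∧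
    Tendsto (fun X : ℕ => (({k : ℕ | k ≤ X ∧ ¬ Good lam (y k) k}.ncard : ℕ) : ℝ) / X)
      atTop (𝓝 0) := by
  apply Pool.Agent.Y346.CH.diagonal (fun y k => ¬ Good lam y k)
  · intro k l n hkl h1 h2
    exact h1 (good_mono hkl h2)
  · intro y
    refine Pool.Agent.TH905.PC.Negl.mono ?_
      ((Pool.Agent.TH905.PC.ar_negl (y.factorial * lam)
        (mul_ne_zero (Nat.factorial_ne_zero y) (by omega))).shift lam)
    intro k hk
    have hk' := hk
    simp only [Good, not_forall] at hk
    obtain ⟨v, B, s, t, c, d, hB, -⟩ := hk
    have hv : 2 ≤ v := by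
      have h1 := hB.two_le
      have h2 := hB.lt
      omega
    obtain ⟨hlk, -, -⟩ := Pool.Agent.H951R4.OD.design_facts hv hlam hB.lt hB.size hB.pair
    exact ⟨hlk.le, by omega, fun har => hk' (good_of hlam har)⟩

end Pool.Agent.Results.MP_c38931_co.TacticalDecompositions
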